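import Mathlib

/-!
# RN4: the CLAIM induction (abstract form) and scale separation

Abstract data: for every level `l` a finite nonempty type of runs, the used set of a run, a type of
admissible cost data with a real cost of every run.  The hypothesis `LevelStep` is the level lemma
(young rows + converters); the theorem `claim` glues the levels.
-/

set_option autoImplicit false

namespace RN

open Finset

variable {Id : Type} [DecidableEq Id]

/-- The used set belonging to a sign vector: `P j` for `s j = true`, `Q j` otherwise. -/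
def Sset (P Q : ℕ → Finset Id) (l : ℕ) (s : ℕ → Bool) : Finset Id :=
  (Finset.range l).biUnion (fun j => if s j then P j else Q j)

lemma Sset_zero (P Q : ℕ → Finset Id) (s : ℕ → Bool) : Sset P Q 0 s = ∅ := by
  simp [Sset]

lemma Sset_succ (P Q : ℕ → Finset Id) (l : ℕ) (s : ℕ → Bool) :
    Sset P Q (l + 1) s = Sset P Q l s ∪ (if s l then P l else Q l) := by
  unfold Sset
  rw [Finset.range_add_one, Finset.biUnion_insert, Finset.union_comm]

/-- The used sets of different sign vectors are different. -/
lemma Sset_injective (P Q : ℕ → Finset Id) (lev : Id → ℕ)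
    (hP : ∀ j, ∀ i ∈ P j, lev i = j) (hQ : ∀ j, ∀ i ∈ Q j, lev i = j)
    (hPQ : ∀ j, Disjoint (P j) (Q j)) (D : ℕ) (hne : ∀ j < D, (P j).Nonempty)
    {s s' : ℕ → Bool} (h : Sset P Q D s = Sset P Q D s') : ∀ j < D, s j = s' j := by
  have key : ∀ s s' : ℕ → Bool, Sset P Q D s = Sset P Q D s' → ∀ j < D, s j = true → s' j = true := by
    intro s s' h j hj hs
    obtain ⟨i, hi⟩ := hne j hj
    have h1 : i ∈ Sset P Q D s := by
      unfold Sset
      rw [Finset.mem_biUnion]
      exact ⟨j, Finset.mem_range.mpr hj, by simp [hs, hi]⟩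
    rw [h] at h1
    unfold Sset at h1
    rw [Finset.mem_biUnion] at h1
    obtain ⟨j', hj', hi'⟩ := h1
    by_cases hs' : s' j' = true
    · rw [if_pos hs'] at hi'
      have := hP j' i hi'
      have h2 := hP j i hi
      have h3 : j' = j := by omega
      rw [h3] at hs'
      exact hs'
    · rw [if_neg hs'] at hi'
      have := hQ j' i hi'
      have h2 := hP j i hi
      have h3 : j' = j := by omega
      rw [h3] at hi'
      exact absurd hi' (Finset.disjoint_left.mp (hPQ j) hi)
  intro j hj
  by_cases h1 : s j = true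
  · rw [h1, key s s' h j hj h1]
  · by_cases h2 : s' j = true
    · exact absurd (key s' s h.symm j hj h2) h1
    · simp only [Bool.not_eq_true] at h1 h2
      rw [h1, h2]

/-- One sign of the level lemma. `f` is the level objective of this sign, `m` its minimum, `N` the
new used items, `c` the constant. -/
structure SignStep {RV RW : Type} (usedV : RV → Finset Id) (costV : RV → ℝ)
    (usedW : RW → Finset Id) (old : RW → ℝ) (f : RW → ℝ) (m : ℝ) (N : Finset Id) (c : ℝ) : Prop where
  lower : ∀ r', m ≤ f r'
  down : ∀ r', f r' = m → ∃ r, usedW r' = usedV r ∪ N ∧ old r' = costV r + c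
  up : ∀ r, ∃ r', f r' = m ∧ usedW r' = usedV r ∪ N ∧ old r' = costV r + c

/-- The level lemma as a statement on two abstract systems: for given old costs `costV`
there are the level cost `κ` and the transported old cost `old`, and all `M * κ + old` with `M`
large are admissible costs of the new system. -/
def LevelStep {RV RW CW : Type} (usedV : RV → Finset Id) (costV : RV → ℝ)
    (usedW : RW → Finset Id) (costW : CW → RW → ℝ) (P Q : Finset Id) (h : Id → ℝ) : Prop :=
  ∃ (κ old : RW → ℝ) (M0 mm mp cm cp : ℝ),
    (∀ M, M0 ≤ M → ∃ d' : CW, ∀ r', costW d' r' = M * κ r' + old r') ∧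
    SignStep usedV costV usedW old κ mm Q cm ∧
    SignStep usedV costV usedW old (fun r' => κ r' - ∑ i ∈ usedW r', h i) mp P cp

/-- finite gap lemma -/
lemma exists_gap {R : Type} [Finite R] (f : R → ℝ) (m : ℝ) (hm : ∀ r, m ≤ f r) :
    ∃ δ : ℝ, 0 < δ ∧ ∀ r, f r ≠ m → m + δ ≤ f r := by
  classical
  have := Fintype.ofFinite R
  by_cases hne : ((Finset.univ : Finset R).filter (fun r => f r ≠ m)).Nonempty
  · obtain ⟨r0, hr0, hmin⟩ := Finset.exists_min_image _ f hne
    rw [Finset.mem_filter] at hr0
    refine ⟨f r0 - m, ?_, ?_⟩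
    · have := hm r0
      rcases lt_or_eq_of_le this with h | h
      · linarith
      · exact absurd h.symm hr0.2
    · intro r hr
      have := hmin r (by rw [Finset.mem_filter]; exact ⟨Finset.mem_univ _, hr⟩)
      linarith
  · refine ⟨1, one_pos, ?_⟩
    intro r hr
    exact absurd ⟨r, by rw [Finset.mem_filter]; exact ⟨Finset.mem_univ _, hr⟩⟩ hne

lemma exists_bound {R : Type} [Finite R] (g : R → ℝ) : ∃ B : ℝ, 0 ≤ B ∧ ∀ r, |g r| ≤ B := by
  classical
  have := Fintype.ofFinite R
  refine ⟨∑ r, |g r|, Finset.sum_nonneg (fun _ _ => abs_nonneg _), ?_⟩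
  intro r
  exact Finset.single_le_sum (f := fun r => |g r|) (fun _ _ => abs_nonneg _) (Finset.mem_univ r)

/-- scale separation: for `M` large a minimiser of `M f + g` minimises `f`, uniformly for `|g| ≤ B`. -/
lemma exists_scale {R : Type} [Finite R] (f : R → ℝ) (m : ℝ) (hm : ∀ r, m ≤ f r)
    (hatt : ∃ r, f r = m) (B : ℝ) (hB : 0 ≤ B) :
    ∃ M1 : ℝ, 0 < M1 ∧ ∀ M, M1 ≤ M → ∀ g : R → ℝ, (∀ r, |g r| ≤ B) → ∀ r,
      (∀ r2, M * f r + g r ≤ M * f r2 + g r2) → f r = m := by
  obtain ⟨δ, hδ, hgap⟩ := exists_gap f m hm
  obtain ⟨r0, hr0⟩ := hatt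
  refine ⟨(2 * B + 1) / δ, by positivity, ?_⟩
  intro M hM g hg r hr
  by_contra hne
  have h1 := hgap r hne
  have h2 := hr r0
  rw [hr0] at h2
  have h3 := abs_le.mp (hg r)
  have h4 := abs_le.mp (hg r0)
  have hMpos : 0 < M := lt_of_lt_of_le (by positivity) hM
  have h5 : 2 * B + 1 ≤ M * δ := by
    have := (div_le_iff₀ hδ).mp hM
    linarith
  have h6 : M * (m + δ) ≤ M * f r := mul_le_mul_of_nonneg_left h1 hMpos.le
  nlinarith

/-- The objective of the spot `s` with `l` levels. -/
def objective {R : Type} (used : R → Finset Id) (cost : R → ℝ) (M : ℕ → ℝ) (h : ℕ → Id → ℝ)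
    (l : ℕ) (s : ℕ → Bool) (r : R) : ℝ :=
  cost r - ∑ j ∈ Finset.range l, if s j then M j * ∑ i ∈ used r, h j i else 0

lemma objective_succ {R : Type} (used : R → Finset Id) (cost : R → ℝ) (M : ℕ → ℝ)
    (h : ℕ → Id → ℝ) (l : ℕ) (s : ℕ → Bool) (r : R) :
    objective used cost M h (l + 1) s r =
      objective used cost M h l s r - (if s l then M l * ∑ i ∈ used r, h l i else 0) := by
  unfold objective
  rw [Finset.sum_range_succ]
  ring

lemma objective_congr {R : Type} (used : R → Finset Id) (cost : R → ℝ) {M M' : ℕ → ℝ}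
    (h : ℕ → Id → ℝ) (l : ℕ) (hM : ∀ j < l, M j = M' j) (s : ℕ → Bool) (r : R) :
    objective used cost M h l s r = objective used cost M' h l s r := by
  unfold objective
  congr 1
  apply Finset.sum_congr rfl
  intro j hj
  rw [hM j (Finset.mem_range.mp hj)]

/-- The core of the induction step for one sign. -/
lemma sign_step {RV RW : Type} {usedV : RV → Finset Id} {costV : RV → ℝ}
    {usedW : RW → Finset Id} {old f : RW → ℝ} {m : ℝ} {N : Finset Id} {c : ℝ}
    (hs : SignStep usedV costV usedW old f m N c) (hdis : ∀ r, Disjoint (usedV r) N)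
    (M : ℕ → ℝ) (h : ℕ → Id → ℝ) (l : ℕ) (s : ℕ → Bool) (S : Finset Id)
    (hV : ∀ r, (∀ r2, objective usedV costV M h l s r ≤ objective usedV costV M h l s r2) →
      usedV r = S)
    (Mnew : ℝ)
    (r' : RW) (hf : f r' = m)
    (hr' : ∀ r2, Mnew * f r' + objective usedW old M h l s r' ≤
      Mnew * f r2 + objective usedW old M h l s r2) :
    usedW r' = S ∪ N := by
  obtain ⟨r, hu, ho⟩ := hs.down r' hf
  have hobj : ∀ (q' : RW) (q : RV), usedW q' = usedV q ∪ N → old q' = costV q + c →
      objective usedW old M h l s q' = objective usedV costV M h l s q + c -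
        ∑ j ∈ Finset.range l, if s j then M j * ∑ i ∈ N, h j i else 0 := by
    intro q' q hq1 hq2
    unfold objective
    rw [hq2]
    have : (∑ j ∈ Finset.range l, if s j then M j * ∑ i ∈ usedW q', h j i else 0) =
        (∑ j ∈ Finset.range l, if s j then M j * ∑ i ∈ usedV q, h j i else 0) +
        ∑ j ∈ Finset.range l, if s j then M j * ∑ i ∈ N, h j i else 0 := by
      rw [← Finset.sum_add_distrib]
      apply Finset.sum_congr rfl
      intro j _
      by_cases hsj : s j = true
      · simp only [hsj, if_true]
        rw [hq1, Finset.sum_union (hdis q)]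
        ring
      · simp [hsj]
    rw [this]
    ring
  have hr : usedV r = S := by
    apply hV
    intro r2
    obtain ⟨r2', hf2, hu2, ho2⟩ := hs.up r2
    have h1 := hr' r2'
    rw [hf, hf2, hobj r' r hu ho, hobj r2' r2 hu2 ho2] at h1
    linarith
  rw [hu, hr]

/-- **RN4.** The tower of levels: if every level step satisfies the level lemma, then after `l` levels
there are costs and scales such that at each of the `2 ^ l` spots all optimal runs have the used
set `Sset P Q l s`. -/
theorem claim {R : ℕ → Type} [∀ l, Finite (R l)] [∀ l, Nonempty (R l)] (C : ℕ → Type)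
    (used : ∀ l, R l → Finset Id) (cost : ∀ l, C l → R l → ℝ)
    (P Q : ℕ → Finset Id) (h : ℕ → Id → ℝ) (D : ℕ)
    (hbase : ∃ _d : C 0, ∀ r, used 0 r = ∅)
    (hdisP : ∀ l < D, ∀ r, Disjoint (used l r) (P l))
    (hdisQ : ∀ l < D, ∀ r, Disjoint (used l r) (Q l))
    (hstep : ∀ l < D, ∀ d : C l,
      LevelStep (used l) (cost l d) (used (l + 1)) (cost (l + 1)) (P l) (Q l) (h l)) :
    ∀ l ≤ D, ∃ (d : C l) (M : ℕ → ℝ), (∀ j, 0 < M j) ∧ ∀ s : ℕ → Bool, ∀ r : R l,
      (∀ r2, objective (used l) (cost l d) M h l s r ≤ objective (used l) (cost l d) M h l s r2) →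
      used l r = Sset P Q l s := by
  intro l
  induction l with
  | zero =>
    intro _
    obtain ⟨d, hd⟩ := hbase
    refine ⟨d, fun _ => 1, fun _ => one_pos, ?_⟩
    intro s r _
    rw [hd r, Sset_zero]
  | succ l ih =>
    intro hl
    obtain ⟨d, M, hMpos, hopt⟩ := ih (by omega)
    obtain ⟨κ, old, M0, mm, mp, cm, cp, hadm, hminus, hplus⟩ := hstep l (by omega) d
    -- a bound for all lower order objectives
    obtain ⟨Bo, hBo, hBo'⟩ := exists_bound old
    have hBh : ∀ j, ∃ B : ℝ, 0 ≤ B ∧ ∀ r : R (l + 1), |∑ i ∈ used (l + 1) r, h j i| ≤ B :=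
      fun j => exists_bound (fun r : R (l + 1) => ∑ i ∈ used (l + 1) r, h j i)
    choose Bh hBh0 hBh1 using hBh
    set B : ℝ := Bo + ∑ j ∈ Finset.range l, M j * Bh j with hBdef
    have hB0 : 0 ≤ B := by
      have : 0 ≤ ∑ j ∈ Finset.range l, M j * Bh j :=
        Finset.sum_nonneg (fun j _ => mul_nonneg (hMpos j).le (hBh0 j))
      linarith
    have hbound : ∀ s : ℕ → Bool, ∀ r : R (l + 1),
        |objective (used (l + 1)) old M h l s r| ≤ B := by
      intro s r
      unfold objective
      have h1 : |∑ j ∈ Finset.range l, (if s j then M j * ∑ i ∈ used (l + 1) r, h j i else 0)| ≤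
          ∑ j ∈ Finset.range l, M j * Bh j := by
        refine le_trans (Finset.abs_sum_le_sum_abs _ _) (Finset.sum_le_sum ?_)
        intro j _
        by_cases hsj : s j = true
        · simp only [hsj, if_true]
          rw [abs_mul, abs_of_pos (hMpos j)]
          exact mul_le_mul_of_nonneg_left (hBh1 j r) (hMpos j).le
        · simp only [hsj]
          simpa using mul_nonneg (hMpos j).le (hBh0 j)
      calc |old r - ∑ j ∈ Finset.range l, (if s j then M j * ∑ i ∈ used (l + 1) r, h j i else 0)|
          ≤ |old r| + |∑ j ∈ Finset.range l,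
              (if s j then M j * ∑ i ∈ used (l + 1) r, h j i else 0)| := abs_sub _ _
        _ ≤ Bo + ∑ j ∈ Finset.range l, M j * Bh j := add_le_add (hBo' r) h1
    have hattm : ∃ r', κ r' = mm := by
      obtain ⟨r⟩ := (inferInstance : Nonempty (R l))
      obtain ⟨r', hr', _⟩ := hminus.up r
      exact ⟨r', hr'⟩
    have hattp : ∃ r', κ r' - ∑ i ∈ used (l + 1) r', h l i = mp := by
      obtain ⟨r⟩ := (inferInstance : Nonempty (R l))
      obtain ⟨r', hr', _⟩ := hplus.up r
      exact ⟨r', hr'⟩
    obtain ⟨M1, hM1, hsc1⟩ := exists_scale κ mm hminus.lower hattm B hB0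
    obtain ⟨M2, hM2, hsc2⟩ := exists_scale (fun r' => κ r' - ∑ i ∈ used (l + 1) r', h l i) mp
      hplus.lower hattp B hB0
    set Mn : ℝ := max M0 (max M1 M2) with hMn
    have hMnpos : 0 < Mn := lt_of_lt_of_le hM1 (le_trans (le_max_left _ _) (le_max_right _ _))
    obtain ⟨d', hd'⟩ := hadm Mn (le_max_left _ _)
    refine ⟨d', fun j => if j = l then Mn else M j, ?_, ?_⟩
    · intro j
      by_cases hj : j = l
      · simp only [hj, if_true]; exact hMnpos
      · simp only [hj, if_false]; exact hMpos j
    · intro s r' hr'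
      have hobj : ∀ q : R (l + 1),
          objective (used (l + 1)) (cost (l + 1) d') (fun j => if j = l then Mn else M j) h (l + 1) s q =
          Mn * (if s l then κ q - ∑ i ∈ used (l + 1) q, h l i else κ q) +
            objective (used (l + 1)) old M h l s q := by
        intro q
        rw [objective_succ]
        rw [objective_congr (used (l + 1)) (cost (l + 1) d') (M' := M) h l
          (fun j hj => by simp [Nat.ne_of_lt hj]) s q]
        unfold objective
        rw [hd' q]
        by_cases hsl : s l = true
        · simp only [hsl, if_true]; ring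
        · simp only [hsl, if_false]
          simp only [Bool.false_eq_true, if_false]
          ring
      rw [Sset_succ]
      by_cases hsl : s l = true
      · rw [if_pos hsl]
        have hr2 : ∀ q, Mn * (κ r' - ∑ i ∈ used (l + 1) r', h l i) +
            objective (used (l + 1)) old M h l s r' ≤
            Mn * (κ q - ∑ i ∈ used (l + 1) q, h l i) + objective (used (l + 1)) old M h l s q := by
          intro q
          have := hr' q
          rw [hobj, hobj] at this
          simpa only [hsl, if_true] using this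
        have hf := hsc2 Mn (le_trans (le_max_right _ _) (le_max_right _ _))
          (objective (used (l + 1)) old M h l s) (hbound s) r' hr2
        exact sign_step hplus (hdisP l (by omega)) M h l s _ (hopt s) Mn r' hf hr2
      · rw [if_neg hsl]
        have hr2 : ∀ q, Mn * κ r' + objective (used (l + 1)) old M h l s r' ≤
            Mn * κ q + objective (used (l + 1)) old M h l s q := by
          intro q
          have := hr' q
          rw [hobj, hobj] at this
          simpa only [hsl, if_false, Bool.false_eq_true] using this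
        have hf := hsc1 Mn (le_trans (le_max_left _ _) (le_max_right _ _))
          (objective (used (l + 1)) old M h l s) (hbound s) r' hr2
        exact sign_step hminus (hdisQ l (by omega)) M h l s _ (hopt s) Mn r' hf hr2

end RN
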