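import Mathlib
import Pool.Agent.H80.RN.Claim

/-!
# RN4: the one-step form (doubling the number of spots)

Abstract form of `Claim V n → Claim W (2 n)`.
-/

set_option autoImplicit false

namespace RN

open Finset

variable {IdV IdW : Type} [DecidableEq IdV] [DecidableEq IdW]

/-- One sign of the level lemma, old items embedded by `ι`. -/
structure SignStepE {RV RW : Type} (ι : IdV ↪ IdW) (usedV : RV → Finset IdV) (costV : RV → ℝ)
    (usedW : RW → Finset IdW) (old : RW → ℝ) (f : RW → ℝ) (m : ℝ) (N : Finset IdW) (c : ℝ) :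
    Prop where
  lower : ∀ r', m ≤ f r'
  down : ∀ r', f r' = m → ∃ r, usedW r' = (usedV r).map ι ∪ N ∧ old r' = costV r + c
  up : ∀ r, ∃ r', f r' = m ∧ usedW r' = (usedV r).map ι ∪ N ∧ old r' = costV r + c

/-- The combined level lemma (RN2 + RN3) as a statement on two abstract systems. -/
def LevelStepE {RV RW CW : Type} (ι : IdV ↪ IdW) (usedV : RV → Finset IdV) (costV : RV → ℝ)
    (usedW : RW → Finset IdW) (costW : CW → RW → ℝ) (P Q : Finset IdW) (h : IdW → ℝ) : Prop :=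
  ∃ (κ old : RW → ℝ) (M0 mm mp cm cp : ℝ),
    (∀ M, M0 ≤ M → ∃ d' : CW, ∀ r', costW d' r' = M * κ r' + old r') ∧
    SignStepE ι usedV costV usedW old κ mm Q cm ∧
    SignStepE ι usedV costV usedW old (fun r' => κ r' - ∑ i ∈ usedW r', h i) mp P cp

lemma sign_stepE {RV RW : Type} {ι : IdV ↪ IdW} {usedV : RV → Finset IdV} {costV : RV → ℝ}
    {usedW : RW → Finset IdW} {old f : RW → ℝ} {m : ℝ} {N : Finset IdW} {c : ℝ}
    (hs : SignStepE ι usedV costV usedW old f m N c) (hdis : ∀ r, Disjoint ((usedV r).map ι) N)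
    (p : IdV → ℝ) (q : IdW → ℝ) (hq : ∀ i, q (ι i) = p i) (S : Finset IdV)
    (hV : ∀ r, (∀ r2, costV r + ∑ i ∈ usedV r, p i ≤ costV r2 + ∑ i ∈ usedV r2, p i) →
      usedV r = S)
    (Mnew : ℝ) (r' : RW) (hf : f r' = m)
    (hr' : ∀ r2, Mnew * f r' + (old r' + ∑ i ∈ usedW r', q i) ≤
      Mnew * f r2 + (old r2 + ∑ i ∈ usedW r2, q i)) :
    usedW r' = S.map ι ∪ N := by
  obtain ⟨r, hu, ho⟩ := hs.down r' hf
  have hobj : ∀ (q' : RW) (r0 : RV), usedW q' = (usedV r0).map ι ∪ N → old q' = costV r0 + c →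
      old q' + ∑ i ∈ usedW q', q i = (costV r0 + ∑ i ∈ usedV r0, p i) + c + ∑ i ∈ N, q i := by
    intro q' r0 hq1 hq2
    rw [hq1, Finset.sum_union (hdis r0), Finset.sum_map, hq2]
    simp only [hq]
    ring
  have hr : usedV r = S := by
    apply hV
    intro r2
    obtain ⟨r2', hf2, hu2, ho2⟩ := hs.up r2
    have h1 := hr' r2'
    rw [hf, hf2, hobj r' r hu ho, hobj r2' r2 hu2 ho2] at h1
    linarith
  rw [hu, hr]

/-- **RN4, one step.** Given spots (prices `p σ`) of `V` at which all optimal runs have the used set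
`S σ`, we get an admissible cost of `W` and `M > 0` such that at the prices `q σ` all optimal
runs have used set `S σ ∪ Q`, and at the prices `q σ - M h` used set `S σ ∪ P`. -/
theorem step_spots {RV RW CW Sp : Type} [Finite RW] [Nonempty RV] [Finite Sp] (ι : IdV ↪ IdW)
    (usedV : RV → Finset IdV) (costV : RV → ℝ) (usedW : RW → Finset IdW) (costW : CW → RW → ℝ)
    (P Q : Finset IdW) (h : IdW → ℝ)
    (hdisP : ∀ r, Disjoint ((usedV r).map ι) P) (hdisQ : ∀ r, Disjoint ((usedV r).map ι) Q)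
    (hstep : LevelStepE ι usedV costV usedW costW P Q h)
    (p : Sp → IdV → ℝ) (S : Sp → Finset IdV)
    (hV : ∀ σ r, (∀ r2, costV r + ∑ i ∈ usedV r, p σ i ≤ costV r2 + ∑ i ∈ usedV r2, p σ i) →
      usedV r = S σ)
    (q : Sp → IdW → ℝ) (hq : ∀ σ i, q σ (ι i) = p σ i) :
    ∃ (M : ℝ) (d' : CW), 0 < M ∧ ∀ σ,
      (∀ r', (∀ r2, costW d' r' + ∑ i ∈ usedW r', q σ i ≤ costW d' r2 + ∑ i ∈ usedW r2, q σ i) →
        usedW r' = (S σ).map ι ∪ Q) ∧
      (∀ r', (∀ r2, costW d' r' + ∑ i ∈ usedW r', (q σ i - M * h i) ≤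
          costW d' r2 + ∑ i ∈ usedW r2, (q σ i - M * h i)) →
        usedW r' = (S σ).map ι ∪ P) := by
  obtain ⟨κ, old, M0, mm, mp, cm, cp, hadm, hminus, hplus⟩ := hstep
  have hBs : ∀ σ, ∃ B : ℝ, 0 ≤ B ∧ ∀ r, |old r + ∑ i ∈ usedW r, q σ i| ≤ B :=
    fun σ => exists_bound _
  choose Bσ hB0 hB1 using hBs
  obtain ⟨B, hB, hBB⟩ := exists_bound Bσ
  have hbound : ∀ σ r, |old r + ∑ i ∈ usedW r, q σ i| ≤ B := fun σ r =>
    le_trans (hB1 σ r) (le_trans (le_abs_self _) (hBB σ))
  have hattm : ∃ r', κ r' = mm := by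
    obtain ⟨r⟩ := (inferInstance : Nonempty RV)
    obtain ⟨r', hr', _⟩ := hminus.up r
    exact ⟨r', hr'⟩
  have hattp : ∃ r', κ r' - ∑ i ∈ usedW r', h i = mp := by
    obtain ⟨r⟩ := (inferInstance : Nonempty RV)
    obtain ⟨r', hr', _⟩ := hplus.up r
    exact ⟨r', hr'⟩
  obtain ⟨M1, hM1, hsc1⟩ := exists_scale κ mm hminus.lower hattm B hB
  obtain ⟨M2, hM2, hsc2⟩ := exists_scale (fun r' => κ r' - ∑ i ∈ usedW r', h i) mp
    hplus.lower hattp B hB
  set Mn : ℝ := max M0 (max M1 M2) with hMn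
  have hMnpos : 0 < Mn := lt_of_lt_of_le hM1 (le_trans (le_max_left _ _) (le_max_right _ _))
  obtain ⟨d', hd'⟩ := hadm Mn (le_max_left _ _)
  refine ⟨Mn, d', hMnpos, fun σ => ⟨?_, ?_⟩⟩
  · intro r' hr'
    have hr2 : ∀ r2, Mn * κ r' + (old r' + ∑ i ∈ usedW r', q σ i) ≤
        Mn * κ r2 + (old r2 + ∑ i ∈ usedW r2, q σ i) := by
      intro r2
      have := hr' r2
      rw [hd', hd'] at this
      linarith
    have hf := hsc1 Mn (le_trans (le_max_left _ _) (le_max_right _ _))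
      (fun r => old r + ∑ i ∈ usedW r, q σ i) (hbound σ) r' hr2
    exact sign_stepE hminus hdisQ (p σ) (q σ) (hq σ) (S σ) (hV σ) Mn r' hf hr2
  · intro r' hr'
    have hr2 : ∀ r2, Mn * (κ r' - ∑ i ∈ usedW r', h i) + (old r' + ∑ i ∈ usedW r', q σ i) ≤
        Mn * (κ r2 - ∑ i ∈ usedW r2, h i) + (old r2 + ∑ i ∈ usedW r2, q σ i) := by
      intro r2
      have := hr' r2
      rw [hd', hd', Finset.sum_sub_distrib, Finset.sum_sub_distrib, ← Finset.mul_sum,
        ← Finset.mul_sum] at this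
      linarith
    have hf := hsc2 Mn (le_trans (le_max_right _ _) (le_max_right _ _))
      (fun r => old r + ∑ i ∈ usedW r, q σ i) (hbound σ) r' hr2
    exact sign_stepE hplus hdisP (p σ) (q σ) (hq σ) (S σ) (hV σ) Mn r' hf hr2

/-- The `2 n` new used sets are different. -/
lemma newSets_injective {Sp : Type} (ι : IdV ↪ IdW) (S : Sp → Finset IdV)
    (hS : Function.Injective S) (P Q : Finset IdW) (hPι : ∀ i, ι i ∉ P) (hQι : ∀ i, ι i ∉ Q)
    (hPQ : Disjoint P Q) (hP : P.Nonempty) :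
    Function.Injective (fun x : Sp × Bool => (S x.1).map ι ∪ (if x.2 then P else Q)) := by
  have old_mem : ∀ (T : Finset IdV) (N : Finset IdW) (i : IdV), (∀ i, ι i ∉ N) →
      (ι i ∈ T.map ι ∪ N ↔ i ∈ T) := by
    intro T N i hN
    rw [Finset.mem_union]
    constructor
    · rintro (h | h)
      · rw [Finset.mem_map] at h
        obtain ⟨a, ha, hai⟩ := h
        rwa [← ι.injective hai]
      · exact absurd h (hN i)
    · intro h
      exact Or.inl (Finset.mem_map_of_mem ι h)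
  rintro ⟨σ, b⟩ ⟨σ', b'⟩ heq
  simp only at heq
  have hN : ∀ b : Bool, ∀ i, ι i ∉ (if b then P else Q) := by
    intro b i
    cases b
    · simpa using hQι i
    · simpa using hPι i
  have h1 : S σ = S σ' := by
    ext i
    rw [← old_mem (S σ) _ i (hN b), heq, old_mem (S σ') _ i (hN b')]
  have h2 : b = b' := by
    obtain ⟨x, hx⟩ := hP
    have hxι : ∀ T : Finset IdV, x ∉ T.map ι := by
      intro T h
      rw [Finset.mem_map] at h
      obtain ⟨a, _, ha⟩ := h
      exact hPι a (ha ▸ hx)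
    have hmem : ∀ (T : Finset IdV) (c : Bool), x ∈ T.map ι ∪ (if c then P else Q) ↔ c = true := by
      intro T c
      rw [Finset.mem_union]
      cases c
      · simp only [Bool.false_eq_true, if_false, iff_false, not_or]
        exact ⟨hxι T, Finset.disjoint_left.mp hPQ hx⟩
      · simp [hx]
    have := hmem (S σ) b
    rw [heq, hmem (S σ') b'] at this
    cases b <;> cases b' <;> simp_all
  rw [hS h1, h2]

/-- The choice of the `y`-coordinates (RN6): `lam` small and `Y` large. `x` = positions of the letters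
of `V`, `y` = old `y`-coordinates (0 on bridges). -/
lemma exists_lam {n : ℕ} (x y : Fin n → ℝ) (hx : StrictMono x) :
    ∃ lam : ℝ, 0 < lam ∧ StrictMono (fun j => x j + lam * y j) := by
  by_cases hn : n = 0
  · subst hn
    exact ⟨1, one_pos, fun a => a.elim0⟩
  obtain ⟨B, hB, hy⟩ := exists_bound y
  obtain ⟨δ, hδ, hgap⟩ := exists_gap (fun p : Fin n × Fin n => max 0 (x p.2 - x p.1)) 0
    (fun p => le_max_left _ _)
  refine ⟨δ / (2 * B + 1), by positivity, ?_⟩
  intro a b hab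
  have h1 : x a < x b := hx hab
  have h2 := hgap (a, b) (by
    simp only
    rw [max_eq_right (by linarith)]
    linarith)
  simp only at h2
  rw [max_eq_right (by linarith)] at h2
  have h3 := abs_le.mp (hy a)
  have h4 := abs_le.mp (hy b)
  have h5 : 0 < δ / (2 * B + 1) := by positivity
  have h6 : δ / (2 * B + 1) * (2 * B) < δ := by
    rw [div_mul_eq_mul_div, div_lt_iff₀ (by positivity)]
    nlinarith
  have h7 : δ / (2 * B + 1) * (y a - y b) ≤ δ / (2 * B + 1) * (2 * B) :=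
    mul_le_mul_of_nonneg_left (by linarith) h5.le
  simp only
  nlinarith

end RN
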