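import Pool.Agent.RN.LevelStmt
import Pool.Agent.RN.Struct
import Pool.Agent.H80.RN.OneStep

/-!
# RN4: `Claim N n → Claim N.step (2 n)` from the level lemma
-/

set_option autoImplicit false

namespace TW

open Finset

/-! ## generic lemmas on runs, used sets and costs -/

theorem Run_congr (R : ℕ) (cap : ℕ → ℕ) : ∀ (e1 e2 : List Ev) (zs : List Bool) (σ : St),
    e1.map Ev.lt = e2.map Ev.lt → Run R cap e1 zs σ → Run R cap e2 zs σ
  | [], [], [], _, _, h => h
  | [], [], _ :: _, _, _, h => h.elim
  | [], _ :: _, _, _, h, _ => by simp at h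
  | _ :: _, [], _, _, h, _ => by simp at h
  | _ :: _, _ :: _, [], _, _, h => h.elim
  | a :: e1, b :: e2, z :: zs, σ, h, hr => by
    simp only [List.map_cons, List.cons.injEq] at h
    obtain ⟨h1, h2⟩ := hr
    rw [h.1] at h1 h2
    exact ⟨h1, Run_congr R cap e1 e2 zs _ h.2 h2⟩

theorem Run_length {R : ℕ} {cap : ℕ → ℕ} : ∀ {ev : List Ev} {zs : List Bool} {σ : St},
    Run R cap ev zs σ → zs.length = ev.length
  | [], [], _, _ => rfl
  | [], _ :: _, _, h => h.elim
  | _ :: _, [], _, h => h.elim
  | _ :: _, _ :: _, _, h => by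
    simp only [List.length_cons]
    rw [Run_length h.2]

theorem used_congr : ∀ (e1 e2 : List Ev) (zs : List Bool), e1.map Ev.lt = e2.map Ev.lt →
    used e1 zs = used e2 zs
  | [], [], _, _ => rfl
  | [], _ :: _, _, h => by simp at h
  | _ :: _, [], _, h => by simp at h
  | a :: e1, b :: e2, [], _ => by simp [used]
  | a :: e1, b :: e2, z :: zs, h => by
    simp only [List.map_cons, List.cons.injEq] at h
    have := used_congr e1 e2 zs h.2
    unfold used at this ⊢
    simp only [List.zipWith_cons_cons]
    rw [h.1, this]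

theorem used_length {ev : List Ev} {zs : List Bool} (h : zs.length = ev.length) :
    (used ev zs).length = ev.length := by
  unfold used
  rw [List.length_zipWith, h, min_self]

theorem cost_add (R : ℕ) (t : ℝ × ℝ) : ∀ (ev : List Ev) (zs : List Bool) (σ : St),
    cost R t ev zs σ = cost R (0, 0) ev zs σ +
      (t.1 * dot (used ev zs) (ev.map Ev.x) + t.2 * dot (used ev zs) (ev.map Ev.y))
  | [], zs, σ => by cases zs <;> simp [cost, used, dot]
  | _ :: _, [], σ => by simp [cost, used, dot]
  | e :: ev, z :: zs, σ => by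
    have ih := cost_add R t ev zs (σ + e.lt.eff z)
    unfold used at ih ⊢
    simp only [List.zipWith_cons_cons, List.map_cons, cost, dot]
    rw [ih]
    cases z <;> cases hl : e.lt.isLeaf <;> simp [Ev.use, hl] <;> ring

theorem finite_runs (R : ℕ) (cap : ℕ → ℕ) (ev : List Ev) (σ : St) :
    Finite {zs : List Bool // Run R cap ev zs σ} := by
  have h1 : Finite {zs : List Bool // zs.length = ev.length} :=
    (List.finite_length_eq Bool ev.length).to_subtype
  exact Finite.of_injective
    (fun z : {zs : List Bool // Run R cap ev zs σ} =>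
      (⟨z.1, Run_length z.2⟩ : {zs : List Bool // zs.length = ev.length}))
    (fun a b h => Subtype.ext (Subtype.mk.inj h))

/-! ## scalar product -/

theorem dot_append : ∀ (a b : List Bool) (c d : List ℝ), a.length = c.length →
    dot (a ++ b) (c ++ d) = dot a c + dot b d
  | [], _, [], _, _ => by simp [dot]
  | [], _, _ :: _, _, h => by simp at h
  | _ :: _, _, [], _, h => by simp at h
  | z :: a, b, q :: c, d, h => by
    simp only [List.length_cons, Nat.add_right_cancel_iff] at h
    simp only [List.cons_append, dot]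
    rw [dot_append a b c d h]
    ring

theorem dot_zipWith_add : ∀ (u : List Bool) (x y : List ℝ), x.length = y.length →
    dot u (List.zipWith (· + ·) x y) = dot u x + dot u y
  | [], _, _, _ => by simp [dot]
  | _ :: _, [], [], _ => by simp [dot]
  | _ :: _, [], _ :: _, h => by simp at h
  | _ :: _, _ :: _, [], h => by simp at h
  | z :: u, a :: x, b :: y, h => by
    simp only [List.length_cons, Nat.add_right_cancel_iff] at h
    simp only [List.zipWith_cons_cons, dot]
    rw [dot_zipWith_add u x y h]
    cases z <;> simp <;> ring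

theorem dot_map_mul (c : ℝ) : ∀ (u : List Bool) (x : List ℝ),
    dot u (x.map (c * ·)) = c * dot u x
  | [], _ => by simp [dot]
  | _ :: _, [] => by simp [dot]
  | z :: u, a :: x => by
    simp only [List.map_cons, dot]
    rw [dot_map_mul c u x]
    cases z <;> simp <;> ring

/-! ## restr and glue -/

/-- the body of the step word -/
def bodyLen (st : ℕ → Bool) (w : List Lt) : ℕ := (w.flatMap (blk st)).length

theorem blk_length (st : ℕ → Bool) (ℓ : Lt) : (blk st ℓ).length =
    match ℓ with
    | .leaf r _ => if st r then 4 else 1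
    | .br a b _ _ => if st a then (if st b then 7 else 4) else (if st b then 4 else 1) := by
  cases ℓ with
  | leaf r c => by_cases h : st r <;> simp [blk, h]
  | br a b c d => by_cases h : st a <;> by_cases h' : st b <;> simp [blk, h, h']

theorem bodyLen_cons (st : ℕ → Bool) (ℓ : Lt) (w : List Lt) :
    bodyLen st (ℓ :: w) = (blk st ℓ).length + bodyLen st w := by
  simp [bodyLen, List.flatMap_cons]

theorem blkUsed_length (s : Bool) (st : ℕ → Bool) (ℓ : Lt) (u : Bool) :
    (blkUsed s st ℓ u).length = (blk st ℓ).length := by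
  cases ℓ with
  | leaf r c => by_cases h : st r <;> simp [blk, blkUsed, h]
  | br a b c d => by_cases h : st a <;> by_cases h' : st b <;> simp [blk, blkUsed, h, h']

theorem bodyUsed_length (s : Bool) (st : ℕ → Bool) : ∀ (w : List Lt) (u : List Bool),
    u.length = w.length → (bodyUsed s st w u).length = bodyLen st w
  | [], [], _ => rfl
  | [], _ :: _, h => by simp at h
  | _ :: _, [], h => by simp at h
  | ℓ :: w, z :: u, h => by
    simp only [List.length_cons, Nat.add_right_cancel_iff] at h
    rw [bodyUsed, List.length_append, blkUsed_length, bodyUsed_length s st w u h, bodyLen_cons]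

theorem list_len1 {α : Type} {l : List α} (h : l.length = 1) : ∃ a, l = [a] :=
  List.length_eq_one_iff.mp h

theorem list_len4 {α : Type} {l : List α} (h : l.length = 4) : ∃ a b c d, l = [a, b, c, d] := by
  match l, h with
  | [a, b, c, d], _ => exact ⟨a, b, c, d, rfl⟩

theorem list_len7 {α : Type} {l : List α} (h : l.length = 7) :
    ∃ a b c d e f g, l = [a, b, c, d, e, f, g] := by
  match l, h with
  | [a, b, c, d, e, f, g], _ => exact ⟨a, b, c, d, e, f, g, rfl⟩

/-- one block: scalar product -/
theorem dot_blk (s : Bool) (st : ℕ → Bool) (ℓ : Lt) (qb : List ℝ)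
    (hq : qb.length = (blk st ℓ).length) :
    ∃ c : ℝ, ∀ u : Bool, dot (blkUsed s st ℓ u) qb =
      (if u then (qb.drop (mainIdx st ℓ)).headD 0 else 0) + c := by
  rw [blk_length] at hq
  cases ℓ with
  | leaf r c =>
    by_cases h : st r = true
    · simp only [h, if_true] at hq
      obtain ⟨a, b, x, p, rfl⟩ := list_len4 hq
      refine ⟨(if !s then a else 0) + (if s then p else 0), ?_⟩
      intro u
      cases u <;> cases s <;> simp [blkUsed, mainIdx, h, dot] <;> try ring
    · simp only [h] at hq
      obtain ⟨a, rfl⟩ := list_len1 hq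
      refine ⟨0, ?_⟩
      intro u
      cases u <;> simp [blkUsed, mainIdx, h, dot]
  | br a b c d =>
    by_cases h : st a = true
    · by_cases h' : st b = true
      · simp only [h, h', if_true] at hq
        obtain ⟨q, q', b1, b2, x, p, p', rfl⟩ := list_len7 hq
        refine ⟨(if !s then q + q' else 0) + (if s then p + p' else 0), ?_⟩
        intro u
        cases u <;> cases s <;> simp [blkUsed, mainIdx, h, h', dot] <;> try ring
      · simp only [h, h', if_true] at hq
        obtain ⟨q, b1, x, p, rfl⟩ := list_len4 hq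
        refine ⟨(if !s then q else 0) + (if s then p else 0), ?_⟩
        intro u
        cases u <;> cases s <;> simp [blkUsed, mainIdx, h, h', dot] <;> try ring
    · by_cases h' : st b = true
      · simp only [h, h', if_true] at hq
        obtain ⟨q, b1, x, p, rfl⟩ := list_len4 hq
        refine ⟨(if !s then q else 0) + (if s then p else 0), ?_⟩
        intro u
        cases u <;> cases s <;> simp [blkUsed, mainIdx, h, h', dot] <;> try ring
      · simp only [h, h'] at hq
        obtain ⟨x, rfl⟩ := list_len1 hq
        refine ⟨0, ?_⟩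
        intro u
        cases u <;> simp [blkUsed, mainIdx, h, h', dot]

theorem dot_body (s : Bool) (st : ℕ → Bool) : ∀ (w : List Lt) (q : List ℝ),
    q.length = bodyLen st w → ∃ c : ℝ, ∀ u : List Bool, u.length = w.length →
      dot (bodyUsed s st w u) q = dot u (restr st w q) + c
  | [], q, _ => ⟨0, fun u hu => by
      have : u = [] := by simpa using hu
      subst this
      simp [bodyUsed, dot]⟩
  | ℓ :: w, q, hq => by
    rw [bodyLen_cons] at hq
    have hsplit : q = q.take (blk st ℓ).length ++ q.drop (blk st ℓ).length :=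
      (List.take_append_drop _ _).symm
    have hl1 : (q.take (blk st ℓ).length).length = (blk st ℓ).length := by
      rw [List.length_take]; omega
    have hl2 : (q.drop (blk st ℓ).length).length = bodyLen st w := by
      rw [List.length_drop]; omega
    obtain ⟨c1, hc1⟩ := dot_blk s st ℓ _ hl1
    obtain ⟨c2, hc2⟩ := dot_body s st w _ hl2
    refine ⟨c1 + c2, ?_⟩
    intro u hu
    match u, hu with
    | z :: u, hu =>
      simp only [List.length_cons, Nat.add_right_cancel_iff] at hu
      rw [bodyUsed]
      conv_lhs => rw [hsplit]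
      rw [dot_append _ _ _ _ (by rw [blkUsed_length, hl1]), hc1 z, hc2 u hu, restr, dot]
      have hm : mainIdx st ℓ < (blk st ℓ).length := by
        rw [blk_length]
        cases ℓ with
        | leaf r c => by_cases h : st r <;> simp [mainIdx, h]
        | br a b c d => by_cases h : st a <;> by_cases h' : st b <;> simp [mainIdx, h, h']
      have hhead : ((q.take (blk st ℓ).length).drop (mainIdx st ℓ)).headD 0 =
          (q.drop (mainIdx st ℓ)).headD 0 := by
        rw [List.drop_take]
        cases hd : q.drop (mainIdx st ℓ) with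
        | nil => simp
        | cons a t =>
          have : (blk st ℓ).length - mainIdx st ℓ ≠ 0 := by omega
          obtain ⟨k, hk⟩ := Nat.exists_eq_succ_of_ne_zero this
          rw [hk]
          simp
      rw [hhead]
      ring

/-- scalar product with the glued used set -/
theorem dot_glue (s : Bool) (N : Net) (qQ qm qP : List ℝ)
    (h1 : qQ.length = (ends N true).length) (h2 : qm.length = bodyLen N.st N.w) :
    ∃ c : ℝ, ∀ u : List Bool, u.length = N.w.length →
      dot (glue s N u) (qQ ++ qm ++ qP) = dot u (restr N.st N.w qm) + c := by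
  obtain ⟨c, hc⟩ := dot_body s N.st N.w qm h2
  refine ⟨dot (List.replicate (ends N true).length (!s)) qQ + c +
    dot (List.replicate (ends N false).length s) qP, ?_⟩
  intro u hu
  unfold glue
  rw [dot_append _ _ _ _ (by
      rw [List.length_append, List.length_append, List.length_replicate,
        bodyUsed_length s N.st N.w u hu, h1, h2]),
    dot_append _ _ _ _ (by rw [List.length_replicate, h1]), hc u hu]
  ring

theorem step_w_length (N : Net) : N.step.w.length =
    (ends N true).length + bodyLen N.st N.w + (ends N false).length := by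
  show (ends N true ++ N.w.flatMap (blk N.st) ++ ends N false).length = _
  rw [List.length_append, List.length_append]
  rfl

theorem bodyUsed_inj (s : Bool) (st : ℕ → Bool) : ∀ (w : List Lt) (u v : List Bool),
    u.length = w.length → v.length = w.length → bodyUsed s st w u = bodyUsed s st w v → u = v
  | [], [], [], _, _, _ => rfl
  | [], _ :: _, _, h, _, _ => by simp at h
  | [], [], _ :: _, _, h, _ => by simp at h
  | _ :: _, [], _, h, _, _ => by simp at h
  | _ :: _, _ :: _, [], _, h, _ => by simp at h
  | ℓ :: w, a :: u, b :: v, hu, hv, h => by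
    simp only [List.length_cons, Nat.add_right_cancel_iff] at hu hv
    rw [bodyUsed, bodyUsed] at h
    have hlen : (blkUsed s st ℓ a).length = (blkUsed s st ℓ b).length := by
      rw [blkUsed_length, blkUsed_length]
    obtain ⟨h1, h2⟩ := List.append_inj h hlen
    have h3 : a = b := by
      cases ℓ with
      | leaf r c => by_cases h : st r <;> simp [blkUsed, h] at h1 <;> exact h1
      | br a' b' c d =>
        by_cases h : st a' <;> by_cases h' : st b' <;> simp [blkUsed, h, h'] at h1 <;> exact h1
    rw [h3, bodyUsed_inj s st w u v hu hv h2]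

theorem glue_inj (s : Bool) (N : Net) {u v : List Bool} (hu : u.length = N.w.length)
    (hv : v.length = N.w.length) (h : glue s N u = glue s N v) : u = v := by
  unfold glue at h
  have h1 := List.append_inj_left h (by
    rw [List.length_append, List.length_append, bodyUsed_length s N.st N.w u hu,
      bodyUsed_length s N.st N.w v hv])
  have h2 := List.append_cancel_left h1
  exact bodyUsed_inj s N.st N.w u v hu hv h2

theorem ends_eq_nil {N : Net} {c c' : Bool} (h : ends N c = []) : ends N c' = [] := by
  unfold ends at h ⊢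
  rw [List.flatMap_eq_nil_iff] at h ⊢
  intro r hr
  have h1 := h r hr
  by_cases hs : N.st r = true
  · simp [hs]
  · simp only [hs] at h1 ⊢
    simp only [Bool.false_eq_true, if_false, List.replicate_eq_nil_iff] at h1 ⊢
    exact h1

theorem young_cap {N : Net} (h : ends N true = []) {r : ℕ} (hr : r < N.R)
    (hc : 0 < N.cap r) : N.st r = true := by
  by_contra hs
  unfold ends at h
  rw [List.flatMap_eq_nil_iff] at h
  have h1 := h r (List.mem_range.2 hr)
  simp only [hs] at h1
  simp only [Bool.false_eq_true, if_false, List.replicate_eq_nil_iff] at h1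
  omega

theorem glue_head (N : Net) (h : N.WF) (hl : N.Live) (s : Bool) {u : List Bool}
    (hu : u.length = N.w.length) : (glue s N u).head? = some (!s) := by
  unfold glue
  by_cases he : ends N true = []
  · have hw : N.w ≠ [] := by
      rcases hl with hw | ⟨r, hr, hc, hs⟩
      · exact hw
      · have := young_cap he hr hc
        rw [hs] at this
        exact absurd this (by simp)
    obtain ⟨ℓ, w', hw'⟩ := List.exists_cons_of_ne_nil hw
    have hwf := h.lt ℓ (by rw [hw']; simp)
    rw [hw'] at hu ⊢
    match u, hu with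
    | z :: u, hu =>
      rw [he, ends_eq_nil (c' := false) he]
      simp only [List.length_nil, List.replicate_zero, List.nil_append, List.append_nil, bodyUsed]
      cases ℓ with
      | leaf r c =>
        have hst : N.st r = true := young_cap he hwf.1 hwf.2
        simp [blkUsed, hst]
      | br a b c d =>
        obtain ⟨hab, hb, hca, hcb, _⟩ := hwf
        have hsa : N.st a = true := young_cap he (by omega) hca
        have hsb : N.st b = true := young_cap he hb hcb
        simp [blkUsed, hsa, hsb]
  · obtain ⟨ℓ, w', hw'⟩ := List.exists_cons_of_ne_nil he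
    rw [hw']
    simp [List.replicate_succ]

theorem glue_sign (N : Net) (h : N.WF) (hl : N.Live) {u v : List Bool}
    (hu : u.length = N.w.length) (hv : v.length = N.w.length)
    (he : glue true N u = glue false N v) : False := by
  have h1 := glue_head N h hl true hu
  rw [he, glue_head N h hl false hv] at h1
  simp at h1

/-! ## the new `y`-coordinates and the heights -/

/-- `y`-coordinates of the block of a letter with (scaled) `y`-coordinate `y` -/
noncomputable def blkY (st : ℕ → Bool) (Y : ℝ) : Lt → ℝ → List ℝ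
  | .leaf r _, y => if st r then [-Y, 0, y, Y] else [y]
  | .br a b _ _, y =>
      if st a then
        if st b then [-Y, -Y, 0, 0, y, Y, Y] else [-Y, 0, y, Y]
      else
        if st b then [-Y, 0, y, Y] else [y]

noncomputable def bodyY (st : ℕ → Bool) (Y : ℝ) : List Lt → List ℝ → List ℝ
  | ℓ :: w, y :: ys => blkY st Y ℓ y ++ bodyY st Y w ys
  | _, _ => []

theorem blkY_length (st : ℕ → Bool) (Y : ℝ) (ℓ : Lt) (y : ℝ) :
    (blkY st Y ℓ y).length = (blk st ℓ).length := by
  cases ℓ with
  | leaf r c => by_cases h : st r <;> simp [blk, blkY, h]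
  | br a b c d => by_cases h : st a <;> by_cases h' : st b <;> simp [blk, blkY, h, h']

theorem bodyY_length (st : ℕ → Bool) (Y : ℝ) : ∀ (w : List Lt) (ys : List ℝ),
    ys.length = w.length → (bodyY st Y w ys).length = bodyLen st w
  | [], [], _ => rfl
  | [], _ :: _, h => by simp at h
  | _ :: _, [], h => by simp at h
  | ℓ :: w, y :: ys, h => by
    simp only [List.length_cons, Nat.add_right_cancel_iff] at h
    rw [bodyY, List.length_append, blkY_length, bodyY_length st Y w ys h, bodyLen_cons]

theorem restr_append (st : ℕ → Bool) (ℓ : Lt) (w : List Lt) (a b : List ℝ)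
    (ha : a.length = (blk st ℓ).length) :
    restr st (ℓ :: w) (a ++ b) = (a.drop (mainIdx st ℓ)).headD 0 :: restr st w b := by
  rw [restr, ← ha, List.drop_left]
  congr 1
  have hm := mainIdx_lt st ℓ
  rw [List.drop_append_of_le_length (by omega)]
  cases hd : a.drop (mainIdx st ℓ) with
  | nil =>
    rw [List.drop_eq_nil_iff] at hd
    omega
  | cons x t => rfl

theorem blkY_main (st : ℕ → Bool) (Y : ℝ) (ℓ : Lt) (y : ℝ) :
    ((blkY st Y ℓ y).drop (mainIdx st ℓ)).headD 0 = y := by
  cases ℓ with
  | leaf r c => by_cases h : st r <;> simp [mainIdx, blkY, h]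
  | br a b c d => by_cases h : st a <;> by_cases h' : st b <;> simp [mainIdx, blkY, h, h']

theorem restr_bodyY (st : ℕ → Bool) (Y : ℝ) : ∀ (w : List Lt) (ys : List ℝ),
    ys.length = w.length → restr st w (bodyY st Y w ys) = ys
  | [], [], _ => rfl
  | [], _ :: _, h => by simp at h
  | _ :: _, [], h => by simp at h
  | ℓ :: w, y :: ys, h => by
    simp only [List.length_cons, Nat.add_right_cancel_iff] at h
    rw [bodyY, restr_append _ _ _ _ _ (blkY_length st Y ℓ y), blkY_main,
      restr_bodyY st Y w ys h]

theorem blkHt (st : ℕ → Bool) (s0 top Y : ℝ) (ℓ : Lt) (y : ℝ) (xb : List ℝ)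
    (hx : xb.length = (blk st ℓ).length) (hb : ∀ x ∈ xb, x + -Y < s0 ∧ top < x + Y) :
    BlkHt st s0 top ℓ ((xb.drop (mainIdx st ℓ)).headD 0 + y)
      (List.zipWith (· + ·) xb (blkY st Y ℓ y)) := by
  rw [blk_length] at hx
  cases ℓ with
  | leaf r c =>
    by_cases h : st r = true
    · simp only [h, if_true] at hx
      obtain ⟨q, b, x, p, rfl⟩ := list_len4 hx
      simp only [BlkHt, h, if_true, blkY, mainIdx]
      exact ⟨q + -Y, b + 0, p + Y, by simp, (hb q (by simp)).1, (hb p (by simp)).2⟩
    · simp only [h] at hx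
      obtain ⟨x, rfl⟩ := list_len1 hx
      simp [BlkHt, h, blkY, mainIdx]
  | br a b c d =>
    by_cases h : st a = true
    · by_cases h' : st b = true
      · simp only [h, h', if_true] at hx
        obtain ⟨q, q', b1, b2, x, p, p', rfl⟩ := list_len7 hx
        simp only [BlkHt, h, h', if_true, blkY, mainIdx]
        exact ⟨q + -Y, q' + -Y, b1 + 0, b2 + 0, p + Y, p' + Y, by simp, (hb q (by simp)).1,
          (hb q' (by simp)).1, (hb p (by simp)).2, (hb p' (by simp)).2⟩
      · simp only [h, h', if_true] at hx
        obtain ⟨q, b1, x, p, rfl⟩ := list_len4 hx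
        simp only [BlkHt, h, h', if_true, blkY, mainIdx]
        exact ⟨q + -Y, b1 + 0, p + Y, by simp, (hb q (by simp)).1, (hb p (by simp)).2⟩
    · by_cases h' : st b = true
      · simp only [h, h', if_true] at hx
        obtain ⟨q, b1, x, p, rfl⟩ := list_len4 hx
        simp only [BlkHt, h, h', if_true, blkY, mainIdx]
        exact ⟨q + -Y, b1 + 0, p + Y, by simp, (hb q (by simp)).1, (hb p (by simp)).2⟩
      · simp only [h, h'] at hx
        obtain ⟨x, rfl⟩ := list_len1 hx
        simp [BlkHt, h, h', blkY, mainIdx]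

theorem bodyHt (st : ℕ → Bool) (s0 top Y : ℝ) : ∀ (w : List Lt) (xs ys : List ℝ),
    xs.length = bodyLen st w → ys.length = w.length →
    (∀ x ∈ xs, x + -Y < s0 ∧ top < x + Y) →
    BodyHt st s0 top w (List.zipWith (· + ·) (restr st w xs) ys)
      (List.zipWith (· + ·) xs (bodyY st Y w ys))
  | [], xs, [], hx, _, _ => by
    have : xs = [] := by simpa [bodyLen] using hx
    subst this
    simp [BodyHt, restr, bodyY]
  | [], _, _ :: _, _, h, _ => by simp at h
  | _ :: _, _, [], _, h, _ => by simp at h
  | ℓ :: w, xs, y :: ys, hx, hy, hb => by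
    simp only [List.length_cons, Nat.add_right_cancel_iff] at hy
    rw [bodyLen_cons] at hx
    obtain ⟨a, b, rfl, ha⟩ : ∃ a b, xs = a ++ b ∧ a.length = (blk st ℓ).length :=
      ⟨xs.take (blk st ℓ).length, xs.drop (blk st ℓ).length, (List.take_append_drop _ _).symm,
        by rw [List.length_take]; omega⟩
    have hb' : b.length = bodyLen st w := by
      rw [List.length_append] at hx
      omega
    rw [restr_append _ _ _ _ _ ha, bodyY, List.zipWith_cons_cons,
      List.zipWith_append (by rw [ha, blkY_length])]
    exact ⟨_, _, rfl, blkHt st s0 top Y ℓ y a ha (fun x hx' => hb x (by simp [hx'])),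
      bodyHt st s0 top Y w b ys hb' hy (fun x hx' => hb x (by simp [hx']))⟩

/-- list form of `exists_lam` -/
theorem exists_lam_list (xs ys : List ℝ) (hlen : ys.length = xs.length)
    (hs : xs.Pairwise (· < ·)) :
    ∃ lam : ℝ, 0 < lam ∧
      (List.zipWith (· + ·) xs (ys.map (lam * ·))).Pairwise (· < ·) := by
  obtain ⟨lam, hlam, hmono⟩ := RN.exists_lam (n := xs.length) (fun j => xs[j])
    (fun j => ys[j.1]'(by rw [hlen]; exact j.2)) (by
      intro a b hab
      exact List.pairwise_iff_getElem.1 hs a.1 b.1 a.2 b.2 hab)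
  refine ⟨lam, hlam, ?_⟩
  rw [List.pairwise_iff_getElem]
  intro i j hi hj hij
  have hi' : i < xs.length := by
    rw [List.length_zipWith, List.length_map] at hi
    omega
  have hj' : j < xs.length := by
    rw [List.length_zipWith, List.length_map] at hj
    omega
  have := @hmono ⟨i, hi'⟩ ⟨j, hj'⟩ hij
  simpa using this

/-- bound of a finite list -/
theorem exists_list_bound (l : List ℝ) : ∃ B : ℝ, 0 ≤ B ∧ ∀ x ∈ l, |x| ≤ B := by
  induction l with
  | nil => exact ⟨0, le_rfl, by simp⟩
  | cons a l ih =>
    obtain ⟨B, hB, h⟩ := ih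
    refine ⟨|a| + B, by positivity, ?_⟩
    intro x hx
    rcases List.mem_cons.1 hx with rfl | hx
    · linarith
    · have := h x hx
      have := abs_nonneg a
      linarith

/-! ## the abstract step for one sign -/

theorem min_step {RV RW Sp : Type} [Finite RW] [Nonempty RV] [Finite Sp] (κ : RW → ℝ)
    (m : ℝ) (Rel : RV → RW → Prop) (hlow : ∀ r', m ≤ κ r')
    (hdown : ∀ r', κ r' = m → ∃ r, Rel r r') (hup : ∀ r, ∃ r', κ r' = m ∧ Rel r r')
    (objV : Sp → RV → ℝ) (objW : Sp → RW → ℝ) (e : Sp → ℝ)
    (hrel : ∀ i r r', Rel r r' → objW i r' = objV i r + e i) :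
    ∃ M1 : ℝ, 0 < M1 ∧ ∀ M, M1 ≤ M → ∀ i r',
      (∀ r2, M * κ r' + objW i r' ≤ M * κ r2 + objW i r2) →
      ∃ r, Rel r r' ∧ ∀ r2, objV i r ≤ objV i r2 := by
  have hBs : ∀ i, ∃ B : ℝ, 0 ≤ B ∧ ∀ r, |objW i r| ≤ B := fun i => RN.exists_bound _
  choose Bσ hB0 hB1 using hBs
  obtain ⟨B, hB, hBB⟩ := RN.exists_bound Bσ
  have hatt : ∃ r', κ r' = m := by
    obtain ⟨r⟩ := (inferInstance : Nonempty RV)
    obtain ⟨r', hr', _⟩ := hup r
    exact ⟨r', hr'⟩
  obtain ⟨M1, hM1, hsc⟩ := RN.exists_scale κ m hlow hatt B hB
  refine ⟨M1, hM1, ?_⟩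
  intro M hM i r' hr'
  have hf := hsc M hM (objW i) (fun r => le_trans (hB1 i r) (le_trans (le_abs_self _) (hBB i)))
    r' hr'
  obtain ⟨r, hr⟩ := hdown r' hf
  refine ⟨r, hr, ?_⟩
  intro r2
  obtain ⟨r2', hf2, hr2⟩ := hup r2
  have h1 := hr' r2'
  rw [hf, hf2, hrel i r r' hr, hrel i r2 r2' hr2] at h1
  linarith

/-! ## overwriting positions -/

/-- overwrite the positions of the events -/
def setXY : List Ev → List ℝ → List ℝ → List Ev
  | e :: l, x :: xs, y :: ys => { e with x := x, y := y } :: setXY l xs ys
  | _, _, _ => []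

theorem setXY_lt : ∀ (l : List Ev) (xs ys : List ℝ), xs.length = l.length →
    ys.length = l.length → (setXY l xs ys).map Ev.lt = l.map Ev.lt
  | [], [], [], _, _ => rfl
  | [], _ :: _, _, h, _ => by simp at h
  | [], [], _ :: _, _, h => by simp at h
  | _ :: _, [], _, h, _ => by simp at h
  | _ :: _, _ :: _, [], _, h => by simp at h
  | e :: l, x :: xs, y :: ys, h, h' => by
    simp only [List.length_cons, Nat.add_right_cancel_iff] at h h'
    simp [setXY, setXY_lt l xs ys h h']

theorem setXY_x : ∀ (l : List Ev) (xs ys : List ℝ), xs.length = l.length →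
    ys.length = l.length → (setXY l xs ys).map Ev.x = xs
  | [], [], [], _, _ => rfl
  | [], _ :: _, _, h, _ => by simp at h
  | [], [], _ :: _, _, h => by simp at h
  | _ :: _, [], _, h, _ => by simp at h
  | _ :: _, _ :: _, [], _, h => by simp at h
  | e :: l, x :: xs, y :: ys, h, h' => by
    simp only [List.length_cons, Nat.add_right_cancel_iff] at h h'
    simp [setXY, setXY_x l xs ys h h']

theorem setXY_y : ∀ (l : List Ev) (xs ys : List ℝ), xs.length = l.length →
    ys.length = l.length → (setXY l xs ys).map Ev.y = ys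
  | [], [], [], _, _ => rfl
  | [], _ :: _, _, h, _ => by simp at h
  | [], [], _ :: _, _, h => by simp at h
  | _ :: _, [], _, h, _ => by simp at h
  | _ :: _, _ :: _, [], _, h => by simp at h
  | e :: l, x :: xs, y :: ys, h, h' => by
    simp only [List.length_cons, Nat.add_right_cancel_iff] at h h'
    simp [setXY, setXY_y l xs ys h h']

theorem setXY_cost (R : ℕ) : ∀ (l : List Ev) (xs ys : List ℝ) (zs : List Bool) (σ : St),
    xs.length = l.length → ys.length = l.length →
    cost R (0, 0) (setXY l xs ys) zs σ = cost R (0, 0) l zs σ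
  | [], [], [], _, _, _, _ => rfl
  | [], _ :: _, _, _, _, h, _ => by simp at h
  | [], [], _ :: _, _, _, _, h => by simp at h
  | _ :: _, [], _, _, _, h, _ => by simp at h
  | _ :: _, _ :: _, [], _, _, _, h => by simp at h
  | e :: l, x :: xs, y :: ys, [], _, _, _ => by simp [setXY, cost]
  | e :: l, x :: xs, y :: ys, z :: zs, σ, h, h' => by
    simp only [List.length_cons, Nat.add_right_cancel_iff] at h h'
    simp only [setXY, cost]
    rw [setXY_cost R l xs ys zs _ h h']
    congr 2
    cases z <;> simp [Ev.use]

theorem setXY_cvx (R : ℕ) (cap : ℕ → ℕ) : ∀ (l : List Ev) (xs ys : List ℝ),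
    xs.length = l.length → ys.length = l.length → Cvx R cap l → Cvx R cap (setXY l xs ys)
  | [], [], [], _, _, h => h
  | [], _ :: _, _, h, _, _ => by simp at h
  | [], [], _ :: _, _, h, _ => by simp at h
  | _ :: _, [], _, h, _, _ => by simp at h
  | _ :: _, _ :: _, [], _, h, _ => by simp at h
  | e :: l, x :: xs, y :: ys, h, h', hc => by
    simp only [List.length_cons, Nat.add_right_cancel_iff] at h h'
    intro e' he'
    simp only [setXY, List.mem_cons] at he'
    rcases he' with rfl | he'
    · exact hc e (by simp)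
    · exact setXY_cvx R cap l xs ys h h' (fun a ha => hc a (by simp [ha])) e' he'

/-! ## the claim step -/

theorem Claim_step_of (N : Net) (h : N.WF) (hl : N.Live) (hlev : LevelOK N) (n : ℕ)
    (hc : Claim N n) : Claim N.step (2 * n) := by
  intro xs hlen hsorted
  rw [step_w_length] at hlen
  obtain ⟨xQ, xm, xP, rfl, hQ, hm, hP⟩ : ∃ xQ xm xP : List ℝ, xs = xQ ++ xm ++ xP ∧
      xQ.length = (ends N true).length ∧ xm.length = bodyLen N.st N.w ∧
      xP.length = (ends N false).length := by
    refine ⟨xs.take (ends N true).length,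
      (xs.drop (ends N true).length).take (bodyLen N.st N.w),
      (xs.drop (ends N true).length).drop (bodyLen N.st N.w), ?_, ?_, ?_, ?_⟩
    · rw [List.append_assoc, List.take_append_drop, List.take_append_drop]
    · rw [List.length_take]; omega
    · rw [List.length_take, List.length_drop]; omega
    · rw [List.length_drop, List.length_drop]; omega
  have hsm : xm.Pairwise (· < ·) :=
    (List.pairwise_append.1 (List.pairwise_append.1 hsorted).1).2.1
  obtain ⟨ev, hevlt, hevx, hcvx, ⟨hex, t, S, hSinj, hS⟩⟩ :=
    hc (restr N.st N.w xm) (restr_length _ _ _) (restr_pairwise N.st N.w xm (by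
      rw [hm]; exact le_rfl) hsm)
  have hevlen : ev.length = N.w.length := by
    rw [← hevlt, List.length_map]
  obtain ⟨lam, hlam, hHs⟩ := exists_lam_list (restr N.st N.w xm) (ev.map Ev.y) (by
    rw [List.length_map, restr_length, hevlen]) (restr_pairwise N.st N.w xm (by
      rw [hm]; exact le_rfl) hsm)
  set ys : List ℝ := (ev.map Ev.y).map (lam * ·) with hys
  have hyslen : ys.length = N.w.length := by
    rw [hys, List.length_map, List.length_map, hevlen]
  set H : List ℝ := List.zipWith (· + ·) (restr N.st N.w xm) ys with hH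
  have hHlen : H.length = N.w.length := by
    rw [hH, List.length_zipWith, restr_length, hyslen, min_self]
  obtain ⟨B, hB, hBb⟩ := exists_list_bound ((xQ ++ xm ++ xP) ++ H)
  have hBx : ∀ x ∈ xQ ++ xm ++ xP, |x| ≤ B := fun x hx => hBb x (List.mem_append_left _ hx)
  have hBH : ∀ x ∈ H, |x| ≤ B := fun x hx => hBb x (List.mem_append_right _ hx)
  set Y : ℝ := 2 * B + 2 with hY
  set yW : List ℝ := List.replicate (ends N true).length (-Y) ++ bodyY N.st Y N.w ys ++
    List.replicate (ends N false).length Y with hyW
  have hyWlen : yW.length = (xQ ++ xm ++ xP).length := by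
    rw [hyW]
    simp only [List.length_append, List.length_replicate, bodyY_length N.st Y N.w ys hyslen]
    rw [hQ, hm, hP]
  have hxWlen : (xQ ++ xm ++ xP).length = N.step.w.length := by
    rw [step_w_length]
    simp only [List.length_append]
    rw [hQ, hm, hP]
  set hW : List ℝ := List.zipWith (· + ·) (xQ ++ xm ++ xP) yW with hhW
  have hstepHt : StepHt N (-B - 1) (B + 1) H hW := by
    refine ⟨List.zipWith (· + ·) xQ (List.replicate (ends N true).length (-Y)),
      List.zipWith (· + ·) xm (bodyY N.st Y N.w ys),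
      List.zipWith (· + ·) xP (List.replicate (ends N false).length Y), ?_, ?_, ?_, ?_, ?_, ?_⟩
    · rw [hhW, hyW, List.zipWith_append (by
        simp only [List.length_append, List.length_replicate, bodyY_length N.st Y N.w ys hyslen]
        rw [hQ, hm]), List.zipWith_append (by rw [List.length_replicate, hQ])]
    · rw [List.length_zipWith, List.length_replicate, hQ, min_self]
    · rw [List.length_zipWith, List.length_replicate, hP, min_self]
    · intro z hz
      obtain ⟨i, hi, rfl⟩ := List.mem_iff_getElem.1 hz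
      rw [List.getElem_zipWith, List.getElem_replicate]
      have hi' : i < xQ.length := by
        rw [List.length_zipWith, List.length_replicate] at hi
        omega
      have := (abs_le.1 (hBx xQ[i] (by simp))).2
      have hY' : Y = 2 * B + 2 := hY
      linarith
    · intro z hz
      obtain ⟨i, hi, rfl⟩ := List.mem_iff_getElem.1 hz
      rw [List.getElem_zipWith, List.getElem_replicate]
      have hi' : i < xP.length := by
        rw [List.length_zipWith, List.length_replicate] at hi
        omega
      have := (abs_le.1 (hBx xP[i] (by simp))).1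
      have hY' : Y = 2 * B + 2 := hY
      linarith
    · apply bodyHt N.st _ _ Y N.w xm ys hm hyslen
      intro x hx
      have := abs_le.1 (hBx x (by simp [hx]))
      rw [hY]
      constructor <;> linarith [this.1, this.2]
  obtain ⟨κ, old, M0, mm, mp, cm, cp, hadm, hminus, hplus⟩ := hlev ev H hW (-B - 1) (B + 1)
    hevlt hcvx hHlen hHs (fun x hx => by linarith [(abs_le.1 (hBH x hx)).1])
    (fun x hx => by linarith [(abs_le.1 (hBH x hx)).2]) (by linarith) hstepHt
  obtain ⟨ev0, hev0lt, _, _⟩ := hadm M0 le_rfl
  have hplus0 := hplus ev0 hev0lt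
  -- runs
  have finV := finite_runs N.R N.cap ev 0
  have finW := finite_runs N.step.R N.step.cap ev0 0
  have neV : Nonempty {zs : List Bool // Run N.R N.cap ev zs 0} :=
    ⟨⟨hex.choose, hex.choose_spec⟩⟩
  have hSlen : ∀ i, (S i).length = N.w.length := by
    intro i
    obtain ⟨z, hz⟩ := Finite.exists_min
      (fun z : {zs : List Bool // Run N.R N.cap ev zs 0} => cost N.R (t i) ev z.1 0)
    have := hS i z.1 z.2 (fun zs' h' => hz ⟨zs', h'⟩)
    rw [← this, used_length (Run_length z.2), hevlen]
  have hulen : ∀ z : {zs : List Bool // Run N.R N.cap ev zs 0},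
      (used ev z.1).length = N.w.length := fun z => by
    rw [used_length (Run_length z.2), hevlen]
  -- constants of the scalar products
  have hdx : ∀ s, ∃ c : ℝ, ∀ u : List Bool, u.length = N.w.length →
      dot (glue s N u) (xQ ++ xm ++ xP) = dot u (restr N.st N.w xm) + c :=
    fun s => dot_glue s N xQ xm xP hQ hm
  have hdy : ∀ s, ∃ c : ℝ, ∀ u : List Bool, u.length = N.w.length →
      dot (glue s N u) yW = lam * dot u (ev.map Ev.y) + c := by
    intro s
    obtain ⟨c, hc⟩ := dot_glue s N (List.replicate (ends N true).length (-Y))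
      (bodyY N.st Y N.w ys) (List.replicate (ends N false).length Y)
      (List.length_replicate) (bodyY_length N.st Y N.w ys hyslen)
    refine ⟨c, ?_⟩
    intro u hu
    rw [hyW, hc u hu, restr_bodyY N.st Y N.w ys hyslen, hys, dot_map_mul]
  obtain ⟨cxm, hcxm⟩ := hdx false
  obtain ⟨cxp, hcxp⟩ := hdx true
  obtain ⟨cym, hcym⟩ := hdy false
  obtain ⟨cyp, hcyp⟩ := hdy true
  -- the two signs
  have hsgn : ∀ (s : Bool) (f : List Bool → ℝ) (m c cx cy : ℝ),
      SignOK N ev f old s m c →
      (∀ u : List Bool, u.length = N.w.length →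
        dot (glue s N u) (xQ ++ xm ++ xP) = dot u (restr N.st N.w xm) + cx) →
      (∀ u : List Bool, u.length = N.w.length →
        dot (glue s N u) yW = lam * dot u (ev.map Ev.y) + cy) →
      ∃ M1 : ℝ, 0 < M1 ∧ ∀ M, M1 ≤ M → ∀ (i : Fin n) (zs : List Bool),
        Run N.step.R N.step.cap ev0 zs 0 →
        (∀ z2, Run N.step.R N.step.cap ev0 z2 0 →
          M * f zs + (old zs + ((t i).1 * dot (used ev0 zs) (xQ ++ xm ++ xP) +
            (t i).2 / lam * dot (used ev0 zs) yW)) ≤
          M * f z2 + (old z2 + ((t i).1 * dot (used ev0 z2) (xQ ++ xm ++ xP) +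
            (t i).2 / lam * dot (used ev0 z2) yW))) →
        used ev0 zs = glue s N (S i) := by
    intro s f m c cx cy hok hcx hcy
    obtain ⟨M1, hM1, hmin⟩ := min_step
      (RV := {zs : List Bool // Run N.R N.cap ev zs 0})
      (RW := {zs : List Bool // Run N.step.R N.step.cap ev0 zs 0}) (Sp := Fin n)
      (fun z => f z.1) m
      (fun r r' => used ev0 r'.1 = glue s N (used ev r.1) ∧
        old r'.1 = cost N.R (0, 0) ev r.1 0 + c)
      (fun r' => hok.lower ev0 hev0lt r'.1 r'.2)
      (fun r' hr' => by
        obtain ⟨zv, hzv, h1, h2⟩ := hok.down ev0 hev0lt r'.1 r'.2 hr'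
        exact ⟨⟨zv, hzv⟩, h1, h2⟩)
      (fun r => by
        obtain ⟨zs, hzs, h0, h1, h2⟩ := hok.up ev0 hev0lt r.1 r.2
        exact ⟨⟨zs, hzs⟩, h0, h1, h2⟩)
      (fun i r => cost N.R (t i) ev r.1 0)
      (fun i r' => old r'.1 + ((t i).1 * dot (used ev0 r'.1) (xQ ++ xm ++ xP) +
        (t i).2 / lam * dot (used ev0 r'.1) yW))
      (fun i => c + (t i).1 * cx + (t i).2 / lam * cy)
      (fun i r r' hrel => by
        rw [cost_add N.R (t i), hrel.1, hrel.2, hcx _ (hulen r), hcy _ (hulen r), hevx]
        have : (t i).2 / lam * (lam * dot (used ev r.1) (ev.map Ev.y)) =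
            (t i).2 * dot (used ev r.1) (ev.map Ev.y) := by
          field_simp
        rw [mul_add, mul_add, this]
        ring)
    refine ⟨M1, hM1, ?_⟩
    intro M hM i zs hrun hbest
    obtain ⟨r, hrel, hr⟩ := hmin M hM i ⟨zs, hrun⟩ (fun r2 => hbest r2.1 r2.2)
    rw [hrel.1, hS i r.1 r.2 (fun z' h' => hr ⟨z', h'⟩)]
  obtain ⟨M1, hM1, hm1⟩ := hsgn false κ mm cm cxm cym hminus hcxm hcym
  obtain ⟨M2, hM2, hm2⟩ := hsgn true _ mp cp cxp cyp hplus0 hcxp hcyp
  set M : ℝ := max M0 (max M1 M2) with hMdef
  have hMM0 : M0 ≤ M := le_max_left _ _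
  have hMM1 : M1 ≤ M := le_trans (le_max_left _ _) (le_max_right _ _)
  have hMM2 : M2 ≤ M := le_trans (le_max_right _ _) (le_max_right _ _)
  obtain ⟨evM, hevMlt, hevMcvx, hevMcost⟩ := hadm M hMM0
  have hevMlen : evM.length = N.step.w.length := by
    rw [← hevMlt, List.length_map]
  have hxl : (xQ ++ xm ++ xP).length = evM.length := by rw [hxWlen, hevMlen]
  have hyl : yW.length = evM.length := by rw [hyWlen, hxl]
  have hlt' : (setXY evM (xQ ++ xm ++ xP) yW).map Ev.lt = N.step.w := by
    rw [setXY_lt _ _ _ hxl hyl, hevMlt]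
  have hto0 : ∀ zs, Run N.step.R N.step.cap (setXY evM (xQ ++ xm ++ xP) yW) zs 0 →
      Run N.step.R N.step.cap ev0 zs 0 := fun zs hz =>
    Run_congr _ _ _ _ _ _ (by rw [hlt', hev0lt]) hz
  have hof0 : ∀ zs, Run N.step.R N.step.cap ev0 zs 0 →
      Run N.step.R N.step.cap (setXY evM (xQ ++ xm ++ xP) yW) zs 0 := fun zs hz =>
    Run_congr _ _ _ _ _ _ (by rw [hlt', hev0lt]) hz
  have hused : ∀ zs, used (setXY evM (xQ ++ xm ++ xP) yW) zs = used ev0 zs := fun zs =>
    used_congr _ _ _ (by rw [hlt', hev0lt])
  have hcost : ∀ (τ : ℝ × ℝ) zs, Run N.step.R N.step.cap ev0 zs 0 →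
      cost N.step.R τ (setXY evM (xQ ++ xm ++ xP) yW) zs 0 = M * κ zs + old zs +
        (τ.1 * dot (used ev0 zs) (xQ ++ xm ++ xP) + τ.2 * dot (used ev0 zs) yW) := by
    intro τ zs hz
    rw [cost_add, setXY_cost _ _ _ _ _ _ hxl hyl, hused, setXY_x _ _ _ hxl hyl,
      setXY_y _ _ _ hxl hyl, hevMcost zs (Run_congr _ _ _ _ _ _ (by rw [hev0lt, hevMlt]) hz)]
  have hdotW : ∀ u, dot u hW = dot u (xQ ++ xm ++ xP) + dot u yW := fun u => by
    rw [hhW, dot_zipWith_add _ _ _ hyWlen.symm]
  refine ⟨setXY evM (xQ ++ xm ++ xP) yW, hlt', setXY_x _ _ _ hxl hyl,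
    setXY_cvx _ _ _ _ _ hxl hyl hevMcvx, ?_, ?_⟩
  · obtain ⟨zs, hzs, _⟩ := hminus.up ev0 hev0lt hex.choose hex.choose_spec
    exact ⟨zs, hof0 zs hzs⟩
  · let e : Fin (2 * n) ≃ Fin 2 × Fin n := finProdFinEquiv.symm
    refine ⟨fun j => if (e j).1 = 0 then ((t (e j).2).1, (t (e j).2).2 / lam)
      else ((t (e j).2).1 - M, (t (e j).2).2 / lam - M),
      fun j => if (e j).1 = 0 then glue false N (S (e j).2) else glue true N (S (e j).2), ?_, ?_⟩
    · intro j j' hjj
      simp only at hjj
      apply e.injective
      by_cases h1 : (e j).1 = 0 <;> by_cases h2 : (e j').1 = 0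
      · rw [if_pos h1, if_pos h2] at hjj
        exact Prod.ext (by rw [h1, h2]) (hSinj (glue_inj false N (hSlen _) (hSlen _) hjj))
      · rw [if_pos h1, if_neg h2] at hjj
        exact (glue_sign N h hl (hSlen _) (hSlen _) hjj.symm).elim
      · rw [if_neg h1, if_pos h2] at hjj
        exact (glue_sign N h hl (hSlen _) (hSlen _) hjj).elim
      · rw [if_neg h1, if_neg h2] at hjj
        exact Prod.ext (by omega) (hSinj (glue_inj true N (hSlen _) (hSlen _) hjj))
    · intro j zs hrun hbest
      rw [hused]
      by_cases h1 : (e j).1 = 0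
      · simp only [h1, if_true] at hbest ⊢
        apply hm1 M hMM1 (e j).2 zs (hto0 zs hrun)
        intro z2 hz2
        have h3 := hbest z2 (hof0 z2 hz2)
        rw [hcost _ zs (hto0 zs hrun), hcost _ z2 hz2] at h3
        simp only at h3
        linarith
      · simp only [h1, if_false] at hbest ⊢
        apply hm2 M hMM2 (e j).2 zs (hto0 zs hrun)
        intro z2 hz2
        have h3 := hbest z2 (hof0 z2 hz2)
        rw [hcost _ zs (hto0 zs hrun), hcost _ z2 hz2] at h3
        simp only at h3
        rw [hdotW, hdotW]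
        linarith

end TW
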